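import Pool.Agent.Helper446_WAP.Fix

/-! # MP_c68506_an, Q1: full affirmative answer

Every semitopological semigroup `S` for which `WAP(S)` has a left invariant mean has property (F); no
separability is needed.

Sketch. Let `M` be the closure of the representation `{T_s}` in `(C, wk)^C`, a compact semitopological semigroup of
weakly continuous `Q`-nonexpansive maps. By Grothendieck's theorem on separately continuous functions, `h ∘ T` is
weakly almost periodic for `h ∈ C(M)`, so the mean gives a left invariant functional on `C(M)`. Hence closed right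
ideals of `M` meet, the smallest closed right ideal `R` is two-sided, and for an idempotent `e ∈ R` the set `G = R e`
is a compact group with `T_s e ∈ G` for all `s`. For `x` in a minimal invariant weakly compact convex set `A` the
orbit `F = G x` is weakly compact, `T_s F = F`, and `F` is homogeneous under maps which are weak homeomorphisms and
`Q`-isometries of `F`. Weakly compact sets are fragmented by every `q ∈ Q` (a Cantor scheme of weakly open
sets, which needs no separability), so `F` is `q`-totally bounded. If `F` had positive `q`-diameter, an average of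
a finite net would be a centre and cut down `A`. So `F` is a point, fixed by all `T_s`. -/

open Filter Topology
open scoped BoundedContinuousFunction ComplexOrder

namespace Pool.Agent.Results.MP_c68506_an.DropSeparability

open Pool.Agent.Helper446_WAP

universe u v w

section

variable {𝕂 : Type*} [RCLike 𝕂] {E : Type v} [AddCommGroup E] [Module 𝕂 E] [TopologicalSpace E]

/-- Hahn-Banach for a continuous seminorm at a point -/
lemma exists_functional_at [IsTopologicalAddGroup E] (p : Seminorm 𝕂 E) (hp : Continuous p) (z : E) :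
    ∃ φ : StrongDual 𝕂 E, (∀ v, ‖φ v‖ ≤ p v) ∧ φ z = ((p z : ℝ) : 𝕂) := by
  have key : ∃ g : Module.Dual 𝕂 E, (∀ v, ‖g v‖ ≤ p v) ∧ g z = ((p z : ℝ) : 𝕂) := by
    by_cases hz : z = 0
    · refine ⟨0, fun v => by simp, by simp [hz]⟩
    · let f : Module.Dual 𝕂 (Submodule.span 𝕂 {z}) :=
        ((p z : ℝ) : 𝕂) • ((LinearEquiv.toSpanNonzeroSingleton 𝕂 E z hz).symm : _ →ₗ[𝕂] 𝕂)
      have hf : ∀ t : 𝕂, f ⟨t • z, Submodule.smul_mem _ _ (Submodule.mem_span_singleton_self z)⟩ =
          ((p z : ℝ) : 𝕂) * t := by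
        intro t
        have h1 : (LinearEquiv.toSpanNonzeroSingleton 𝕂 E z hz).symm
            ⟨t • z, Submodule.smul_mem _ _ (Submodule.mem_span_singleton_self z)⟩ = t := by
          rw [LinearEquiv.symm_apply_eq]
          rfl
        show ((p z : ℝ) : 𝕂) * (LinearEquiv.toSpanNonzeroSingleton 𝕂 E z hz).symm _ = _
        rw [h1]
      have hfp : ∀ x : Submodule.span 𝕂 {z}, ‖f x‖ ≤ p x := by
        rintro ⟨x, hx⟩
        obtain ⟨t, rfl⟩ := Submodule.mem_span_singleton.1 hx
        rw [hf t]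
        show ‖((p z : ℝ) : 𝕂) * t‖ ≤ p (t • z)
        rw [map_smul_eq_mul, norm_mul, RCLike.norm_ofReal, abs_of_nonneg (apply_nonneg p z), mul_comm]
      obtain ⟨g, hg, hgp⟩ := Module.Dual.exists_extension_of_le_seminorm
        (Submodule.span 𝕂 {z}) f hfp
      refine ⟨g, hgp, ?_⟩
      have h1 := hg ⟨z, Submodule.mem_span_singleton_self z⟩
      have h2 := hf 1
      rw [mul_one] at h2
      rw [← h2]
      refine h1.trans ?_
      congr 2
      exact (one_smul 𝕂 z).symm
  obtain ⟨g, hgp, hgz⟩ := key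
  have hgc : Continuous g := by
    refine continuous_of_continuousAt_zero g ?_
    unfold ContinuousAt
    rw [map_zero]
    refine squeeze_zero_norm (fun v => hgp v) ?_ (a := fun v => p v)
    have := hp.tendsto 0
    rwa [map_zero] at this
  exact ⟨⟨g, hgc⟩, hgp, hgz⟩

variable [Module ℝ E] [IsScalarTower ℝ 𝕂 E]

/-- the seminorm `p` on `E` with its weak topology, as a real seminorm -/
noncomputable def weakSem (p : Seminorm 𝕂 E) : Seminorm ℝ (WeakSpace 𝕂 E) :=
  (p.restrictScalars ℝ).comp (((toWeakSpace 𝕂 E).symm.restrictScalars ℝ : WeakSpace 𝕂 E ≃ₗ[ℝ] E) :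
    WeakSpace 𝕂 E →ₗ[ℝ] E)

lemma weakSem_apply (p : Seminorm 𝕂 E) (z : WeakSpace 𝕂 E) :
    weakSem p z = p ((toWeakSpace 𝕂 E).symm z) := rfl

lemma hb_weakSem [IsTopologicalAddGroup E] (p : Seminorm 𝕂 E) (hp : Continuous p) :
    HB (weakSem p) := by
  intro z
  obtain ⟨φ, h1, h2⟩ := exists_functional_at p hp ((toWeakSpace 𝕂 E).symm z)
  refine ⟨fun v => RCLike.re (φ ((toWeakSpace 𝕂 E).symm v)), ?_, fun x y => ?_,
    fun v => (RCLike.abs_re_le_norm _).trans (h1 _), ?_⟩
  · exact RCLike.continuous_re.comp (WeakBilin.eval_continuous (topDualPairing 𝕂 E).flip φ)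
  · show RCLike.re (φ ((toWeakSpace 𝕂 E).symm (x - y))) =
      RCLike.re (φ ((toWeakSpace 𝕂 E).symm x)) - RCLike.re (φ ((toWeakSpace 𝕂 E).symm y))
    rw [map_sub, map_sub, map_sub]
  · show RCLike.re (φ ((toWeakSpace 𝕂 E).symm z)) = p ((toWeakSpace 𝕂 E).symm z)
    rw [h2, RCLike.ofReal_re]

lemma sepa_weakSem [IsTopologicalAddGroup E] [ContinuousSMul 𝕂 E] [LocallyConvexSpace ℝ E]
    (p : Seminorm 𝕂 E) (hp : Continuous p) : Sepa (weakSem p) := by
  intro D hD
  let D' : Set E := (toWeakSpace 𝕂 E).symm '' D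
  have hD' : D'.Countable := hD.image _
  obtain ⟨c, hc, hcc⟩ := (hD'.isSeparable.span (R := 𝕂)).closure
  refine ⟨toWeakSpace 𝕂 E '' c, hc.image _, fun z hz δ hδ => ?_⟩
  have h1 : z ∈ closure (toWeakSpace 𝕂 E '' (Submodule.span 𝕂 D' : Set E)) := by
    refine closure_mono ?_ hz
    intro d hd
    exact ⟨(toWeakSpace 𝕂 E).symm d, Submodule.subset_span ⟨d, hd, rfl⟩, by simp⟩
  have hcv : Convex ℝ (Submodule.span 𝕂 D' : Set E) :=
    ((Submodule.span 𝕂 D').restrictScalars ℝ).convex
  rw [← Convex.toWeakSpace_closure 𝕂 hcv] at h1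
  obtain ⟨z', hz', rfl⟩ := h1
  have h2 := hcc hz'
  have hopen : IsOpen {u : E | p (z' - u) < δ} :=
    isOpen_lt (hp.comp (continuous_const.sub continuous_id)) continuous_const
  obtain ⟨u, hu1, hu2⟩ := mem_closure_iff.1 h2 _ hopen (by
    show p (z' - z') < δ
    rw [sub_self, map_zero]
    exact hδ)
  refine ⟨toWeakSpace 𝕂 E u, ⟨u, hu2, rfl⟩, ?_⟩
  show p ((toWeakSpace 𝕂 E).symm (toWeakSpace 𝕂 E z' - toWeakSpace 𝕂 E u)) < δ
  rw [map_sub, LinearEquiv.symm_apply_apply, LinearEquiv.symm_apply_apply]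
  exact hu1

end

/-- **Theorem.** Let `S` be a semitopological semigroup such that `WAP(S)` (real or complex valued: `𝕜`) has a left
invariant mean. Then `S` has property (F), for spaces over `ℝ` and over `ℂ` (`𝕂`). -/
theorem result (𝕜 𝕂 : Type*) [RCLike 𝕜] [RCLike 𝕂] (S : Type u) [Semigroup S] [TopologicalSpace S]
    [T2Space S] [SeparatelyContinuousMul S] (h : ∃ m : WAP 𝕜 S →ₗ[𝕜] 𝕜, IsLIM m) :
    PropertyF.{u, v, w} 𝕂 S := by
  obtain ⟨m, hm⟩ := h
  intro E _ _ _ _ _ _ ι Q hQ C hne hconv hC T hT hnon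
  have h1 : IsTopologicalAddGroup E := hQ.topologicalAddGroup
  have h2 : ContinuousSMul 𝕂 E := hQ.continuousSMul
  have h3 : LocallyConvexSpace ℝ E := hQ.toLocallyConvexSpace
  have h4 : SeparatingDual 𝕂 E := ⟨fun x hx => by
    obtain ⟨i, hi⟩ := hQ.separating_of_T1 x hx
    obtain ⟨φ, _, hφ⟩ := exists_functional_at (Q i) (hQ.continuous_seminorm i) x
    refine ⟨φ, ?_⟩
    rw [hφ]
    simpa using hi⟩
  have h5 : T2Space (WeakSpace 𝕂 E) := inferInstance
  have h6 : IsTopologicalAddGroup (WeakSpace 𝕂 E) := inferInstance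
  have hHB : ∀ i, HB (weakSem (Q i)) := fun i => hb_weakSem _ (hQ.continuous_seminorm i)
  have hSp : ∀ i, Sepa (weakSem (Q i)) := fun i => sepa_weakSem _ (hQ.continuous_seminorm i)
  have hs : ∀ x : WeakSpace 𝕂 E, x ≠ 0 → ∃ i, weakSem (Q i) x ≠ 0 := fun x hx =>
    hQ.separating_of_T1 ((toWeakSpace 𝕂 E).symm x) (by
      rw [Ne, LinearEquiv.map_eq_zero_iff]
      exact hx)
  have hcv : Convex ℝ (toWeakSpace 𝕂 E '' C) :=
    hconv.linear_image (((toWeakSpace 𝕂 E).restrictScalars ℝ : E ≃ₗ[ℝ] WeakSpace 𝕂 E) :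
      E →ₗ[ℝ] WeakSpace 𝕂 E)
  exact fixed_point (fun i => weakSem (Q i)) hHB hSp hs m hm (wk 𝕂 C) (hne.image _)
    hcv hC T hT.map_mul hT.continuous_orbit hT.quasi (fun i s x y => hnon i s x y)

end Pool.Agent.Results.MP_c68506_an.DropSeparability
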